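import Mathlib
import Pool.Agent.Helper669.VSys

set_option autoImplicit false

/-!
# `ℵ₂ ↛ (ℵ₂, ℵ₃, ℵ₁, ℵ₂)` for systems of decompositions, under GCH
-/

namespace Pool.Agent.Results.MP_6359ae_lc.HugeSystem

open Cardinal Pool.Agent.Helper669.Forcing Pool.Agent.Helper669.K Pool.Agent.Helper669.U
  Pool.Agent.Helper669.V

/-- Assume GCH, and let `κ` be a huge cardinal with target `m`. Some forcing notion forces GCH,
that `ω₁`, `κ` and `m` are regular, that every cardinal below `κ` has cardinality at most `ℵ₁` and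
every cardinal below `m` has cardinality at most `κ` (so `κ = ℵ₂` and `m = ℵ₃`), and, for every set
`Y` of the ground model with at least two elements (for example of size `κ`), that
`κ ↛ (|Y|, m, ℵ₁, κ)`: for every family of `m` decompositions of a set of size `κ` into pieces
indexed by `Y` there are `ℵ₁` of them, and a choice of one piece from each of these, such that the
chosen pieces leave out a set of size `κ`. -/
theorem result (hGCH : ∀ ν : Cardinal.{0}, ℵ₀ ≤ ν → 2 ^ ν = Order.succ ν) (κ m : Cardinal.{0})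
    (h : IsHuge κ m) :
    ∃ (P : Type) (_ : Preorder P), Nonempty P ∧ ∀ p : P,
      p ∈ StaysRegular P ℵ₁ ∧ p ∈ StaysRegular P κ ∧ p ∈ StaysRegular P m ∧
      p ∈ CollapsedTo P ℵ₁ κ ∧ p ∈ CollapsedTo P κ m ∧ p ∈ ForcesGCH P ∧
      ∀ Y : Type, Nontrivial Y → p ∈ NoSystem P κ.ord.ToType Y m.ord.ToType
        (ℵ₁ : Cardinal.{0}).ord.ToType := by
  obtain ⟨P, i, h1, h2⟩ := huge_iteration_gch h hGCH
  refine ⟨P, i, h1, fun p => ?_⟩
  obtain ⟨a, b, c, d, e, f, _, g⟩ := h2 p
  exact ⟨a, b, c.2 m c.1 le_rfl, d, e, f, fun Y _ => noSystem_of_polarizedRel p g⟩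

end Pool.Agent.Results.MP_6359ae_lc.HugeSystem
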